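import Pool.Agent.Helper23.AC.UBall
import Pool.Agent.Helper8.AC.Norm
import Pool.Agent.Helper23.AC.Pair
import Pool.Agent.Helper8.AC.Step1
import Pool.Agent.Helper87.AC.Average

/-! AC-11: groups (MP_981e7e_an) -/

set_option autoImplicit false

namespace Pool.Agent.Helper23.AC

open Finset

/-- values of a sum of point masses at different points -/
theorem grp_sum_single_apply (F : Finset ℕ) (p : ℕ → ℕ) (a : ℕ → ℝ) (hp : Set.InjOn p F) {i : ℕ}
    (hi : i ∈ F) : (∑ j ∈ F, Finsupp.single (p j) (a j) : Fn) (p i) = a i := by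
  rw [Finsupp.finsetSum_apply, Finset.sum_eq_single i]
  · simp
  · intro j hj hji
    rw [Finsupp.single_apply, if_neg]
    exact fun h => hji (hp hj hi h)
  · exact fun h => absurd hi h

theorem grp_sum_single_apply_of_notMem (F : Finset ℕ) (p : ℕ → ℕ) (a : ℕ → ℝ) {n : ℕ}
    (hn : ∀ i ∈ F, p i ≠ n) : (∑ j ∈ F, Finsupp.single (p j) (a j) : Fn) n = 0 := by
  rw [Finsupp.finsetSum_apply]
  refine Finset.sum_eq_zero fun j hj => ?_
  rw [Finsupp.single_apply, if_neg (hn j hj)]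

/-- moving point masses to the right -/
theorem ub_move_fin {lam : ℝ} (F : Finset ℕ) (p q : ℕ → ℕ) (a : ℕ → ℝ) (hp : Set.InjOn p F)
    (hq : Set.InjOn q F) (hpq : ∀ i ∈ F, p i ≤ q i)
    (h : UB lam (∑ i ∈ F, Finsupp.single (p i) (a i))) :
    UB lam (∑ i ∈ F, Finsupp.single (q i) (a i)) := by
  classical
  set c : Fn := ∑ i ∈ F, Finsupp.single (p i) (a i) with hc
  have hcp : ∀ i ∈ F, c (p i) = a i := fun i hi => grp_sum_single_apply F p a hp hi
  have hsupp : c.support ⊆ F.image p := by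
    intro n hn
    by_contra hcon
    refine (Finsupp.mem_support_iff.1 hn) (grp_sum_single_apply_of_notMem F p a fun i hi h' => ?_)
    exact hcon (Finset.mem_image.2 ⟨i, hi, h'⟩)
  let τ : ℕ → ℕ := fun n => if h : ∃ i ∈ F, p i = n then q h.choose else n
  have hτ : ∀ i ∈ F, τ (p i) = q i := by
    intro i hi
    have hex : ∃ j ∈ F, p j = p i := ⟨i, hi, rfl⟩
    have h1 : τ (p i) = q hex.choose := dif_pos hex
    rw [h1]
    congr 1
    exact hp hex.choose_spec.1 hi hex.choose_spec.2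
  have key := ub_move h τ ?_ ?_
  · have heq : ∑ i ∈ c.support, Finsupp.single (τ i) (c i) = ∑ i ∈ F, Finsupp.single (q i) (a i) := by
      rw [Finset.sum_subset hsupp, Finset.sum_image hp]
      · exact Finset.sum_congr rfl fun i hi => by rw [hτ i hi, hcp i hi]
      · intro n _ hn
        rw [Finsupp.notMem_support_iff.1 hn, Finsupp.single_zero]
    rwa [heq] at key
  · intro n hn m hm hnm
    obtain ⟨i, hi, rfl⟩ := Finset.mem_image.1 (hsupp hn)
    obtain ⟨j, hj, rfl⟩ := Finset.mem_image.1 (hsupp hm)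
    rw [hτ i hi, hτ j hj] at hnm
    rw [hq hi hj hnm]
  · intro n hn
    obtain ⟨i, hi, rfl⟩ := Finset.mem_image.1 (hsupp hn)
    rw [hτ i hi]
    exact hpq i hi

/-- the predecessor of `s` in `F` -/
def grpPrev (F : Finset ℕ) (s : ℕ) : ℕ := (F.filter (· < s)).sup id

theorem grpPrev_spec {F : Finset ℕ} {s t : ℕ} (ht : t ∈ F) (hts : t < s) :
    grpPrev F s ∈ F ∧ grpPrev F s < s ∧ t ≤ grpPrev F s := by
  have hmem : t ∈ F.filter (· < s) := Finset.mem_filter.2 ⟨ht, hts⟩
  obtain ⟨u, hu, hu'⟩ := Finset.exists_mem_eq_sup _ ⟨t, hmem⟩ (id : ℕ → ℕ)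
  have h1 : grpPrev F s = u := hu'
  have h2 := Finset.mem_filter.1 hu
  refine ⟨h1 ▸ h2.1, h1 ▸ h2.2, ?_⟩
  exact Finset.le_sup (f := (id : ℕ → ℕ)) hmem

/-- the estimate in the dual of the modified Tsirelson space for shifted positions -/
theorem grp_ub {mu : ℝ} (F : Finset ℕ) (A q : ℕ → ℕ) (hA : StrictMono A) (hq : StrictMono q)
    (hAq : ∀ s t, s < t → A s ≤ q t)
    (h : UB mu (∑ s ∈ F, Finsupp.single (A s) 1)) :
    UB (1 + mu) (∑ s ∈ F, Finsupp.single (q s) 1) := by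
  classical
  rcases F.eq_empty_or_nonempty with rfl | hne
  · simp only [Finset.sum_empty]
    exact ub_zero (by have := ub_nonneg h; linarith)
  have hm : F.min' hne ∈ F := F.min'_mem hne
  rw [← Finset.add_sum_erase F _ hm]
  refine ub_add (ub_single _ (by simp)) ?_
  have hlt : ∀ s ∈ F.erase (F.min' hne), F.min' hne < s := by
    intro s hs
    exact lt_of_le_of_ne (F.min'_le s (Finset.mem_of_mem_erase hs)) (Finset.ne_of_mem_erase hs).symm
  have hprev : ∀ s ∈ F.erase (F.min' hne), grpPrev F s ∈ F ∧ grpPrev F s < s := fun s hs =>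
    ⟨(grpPrev_spec hm (hlt s hs)).1, (grpPrev_spec hm (hlt s hs)).2.1⟩
  have hlt' : ∀ s ∈ F.erase (F.min' hne), ∀ t ∈ F.erase (F.min' hne), s < t →
      grpPrev F s < grpPrev F t := by
    intro s hs t ht hst
    exact lt_of_lt_of_le (hprev s hs).2 (grpPrev_spec (Finset.mem_of_mem_erase hs) hst).2.2
  have hinj : Set.InjOn (fun s => A (grpPrev F s)) (F.erase (F.min' hne)) := by
    intro s hs t ht hst
    have h1 := hA.injective hst
    rcases lt_trichotomy s t with h2 | h2 | h2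
    · exact absurd h1 (hlt' s hs t ht h2).ne
    · exact h2
    · exact absurd h1 (hlt' t ht s hs h2).ne'
  refine ub_move_fin _ (fun s => A (grpPrev F s)) q _ hinj (hq.injective.injOn) ?_ ?_
  · intro s hs
    exact hAq _ _ (hprev s hs).2
  · refine ub_mono (fun n => ?_) h
    by_cases hn : ∃ s ∈ F.erase (F.min' hne), A (grpPrev F s) = n
    · obtain ⟨s, hs, rfl⟩ := hn
      have e1 := grp_sum_single_apply _ (fun s => A (grpPrev F s)) (fun _ => 1) hinj
        (Finset.mem_coe.1 hs)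
      have e2 := grp_sum_single_apply F A (fun _ => 1) hA.injective.injOn (hprev s hs).1
      rw [e1, e2]
    · push Not at hn
      have e1 := grp_sum_single_apply_of_notMem (F.erase (F.min' hne))
        (fun s => A (grpPrev F s)) (fun _ => 1) hn
      rw [e1, abs_zero]
      exact abs_nonneg _

/-- a pair with its data -/
structure GrpPair where
  y : Fn
  w : ℕ → ℝ
  a : ℕ
  b : ℕ
  L : ℕ

theorem exists_grp {x : ℕ → Fn} {l r : ℕ → ℕ} (hB : Blk x l r) (hx : ∀ s, x s ≠ 0)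
    (v Lst r₀ : ℕ) (hv : 2 ≤ v) :
    ∃ (u : Fn) (β : ℕ → ℝ) (lo hi : ℕ), u ∈ Submodule.span ℝ (Set.range x) ∧ r₀ < lo ∧
      (∀ n ∈ u.support, lo ≤ n ∧ n ≤ hi) ∧ IsGrp v Lst lo hi β ∧ pr u β = 1 ∧ nx u ≤ 24 := by
  classical
  -- the sequence of pairs
  have hex : ∀ L : ℕ, ∃ P : GrpPair, P.L = L ∧ P.y ∈ Submodule.span ℝ (Set.range x) ∧ L < P.a ∧
      P.a ≤ P.b ∧ IsPair L P.a P.b P.y P.w := by
    intro L
    obtain ⟨y, w, a, b, h1, h2, h3, h4⟩ := exists_pair hB hx L L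
    exact ⟨⟨y, w, a, b, L⟩, rfl, h1, h2, h3, h4⟩
  choose Q hQ using hex
  let P : ℕ → GrpPair := fun n => Nat.rec (Q (max Lst (r₀ + 1))) (fun _ p => Q (max Lst (p.b + 1))) n
  have hP0 : P 0 = Q (max Lst (r₀ + 1)) := rfl
  have hPs : ∀ n, P (n + 1) = Q (max Lst ((P n).b + 1)) := fun n => rfl
  have hPQ : ∀ n, ∃ L, P n = Q L := by
    intro n
    cases n with
    | zero => exact ⟨_, hP0⟩
    | succ n => exact ⟨_, hPs n⟩
  have hspan : ∀ n, (P n).y ∈ Submodule.span ℝ (Set.range x) := by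
    intro n
    obtain ⟨L, hL⟩ := hPQ n
    rw [hL]
    exact (hQ L).2.1
  have hLa : ∀ n, (P n).L < (P n).a := by
    intro n
    obtain ⟨L, hL⟩ := hPQ n
    rw [hL, (hQ L).1]
    exact (hQ L).2.2.1
  have hab : ∀ n, (P n).a ≤ (P n).b := by
    intro n
    obtain ⟨L, hL⟩ := hPQ n
    rw [hL]
    exact (hQ L).2.2.2.1
  have hpair : ∀ n, IsPair (P n).L (P n).a (P n).b (P n).y (P n).w := by
    intro n
    obtain ⟨L, hL⟩ := hPQ n
    rw [hL, (hQ L).1]
    exact (hQ L).2.2.2.2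
  have hLst : ∀ n, Lst ≤ (P n).L := by
    intro n
    cases n with
    | zero => rw [hP0, (hQ _).1]; exact le_max_left _ _
    | succ n => rw [hPs, (hQ _).1]; exact le_max_left _ _
  have hstep : ∀ n, (P n).b < (P (n + 1)).L := by
    intro n
    rw [hPs, (hQ _).1]
    exact lt_of_lt_of_le (Nat.lt_succ_self _) (le_max_right _ _)
  have hL0 : r₀ + 1 ≤ (P 0).L := by
    rw [hP0, (hQ _).1]
    exact le_max_right _ _
  have hLmono : StrictMono fun n => (P n).L := by
    refine strictMono_nat_of_lt_succ fun n => ?_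
    exact ((hLa n).trans_le (hab n)).trans (hstep n)
  have hbL : ∀ m n, m < n → (P m).b < (P n).L := fun m n hmn =>
    (hstep m).trans_le (hLmono.monotone hmn)
  have hbmono : StrictMono fun n => (P n).b := by
    refine strictMono_nat_of_lt_succ fun n => ?_
    exact (hstep n).trans ((hLa (n + 1)).trans_le (hab (n + 1)))
  have hlo : ∀ n, r₀ + 1 ≤ (P n).L := fun n => hL0.trans (hLmono.monotone (Nat.zero_le n))
  -- Step 1
  have hB' : Blk (fun n => (1 / 2 : ℝ) • (P n).y) (fun n => (P n).a) (fun n => (P n).b) := by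
    refine ⟨hab, fun s => (hstep s).trans (hLa (s + 1)), fun s n hn => ?_⟩
    exact (hpair s).ysupp n (Finsupp.support_smul hn)
  obtain ⟨σ, hσ, hσ1⟩ := step1 hB' (fun s => by
    rw [nx_smul]
    have := (hpair s).ynorm
    rw [abs_of_pos (by norm_num : (0 : ℝ) < 1 / 2)]
    linarith)
  -- the average
  obtain ⟨F, b, hb, hb1, hub, hω⟩ := exists_average (12 * v + 7 + 12 * (v - 1) ^ 2)
    (fun s => (P (σ (s + 1))).L + 1) (fun s => (P (σ (s + 1))).b)
    (fun s => (hLa _).trans_le (hab _))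
    (fun s => Nat.lt_succ_of_lt (hbL _ _ (hσ (Nat.lt_succ_self _)))) 0
  have hAmono : StrictMono fun s => (P (σ (s + 1))).L + 1 := fun s t hst =>
    Nat.succ_lt_succ (hLmono (hσ (Nat.succ_lt_succ hst)))
  have hqmono : StrictMono fun s => (P (σ s)).b + 1 := fun s t hst =>
    Nat.succ_lt_succ (hbmono (hσ hst))
  have hub2 := grp_ub F _ _ hAmono hqmono (fun s t hst => by
    have h1 : (P (σ (s + 1))).L ≤ (P (σ t)).L := hLmono.monotone (hσ.monotone hst)
    have h2 := (hLa (σ t)).trans_le (hab (σ t))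
    show (P (σ (s + 1))).L + 1 ≤ (P (σ t)).b + 1
    omega) hub
  have hub3 : UB (bb v) (∑ s ∈ F, Finsupp.single ((P (σ s)).b + 1) ((1 / 8 : ℝ) ^ v)) := by
    have h1 := ub_smul ((1 / 8 : ℝ) ^ v) hub2
    rw [Finset.smul_sum] at h1
    have h2 : ∑ s ∈ F, ((1 / 8 : ℝ) ^ v) • (Finsupp.single ((P (σ s)).b + 1) (1 : ℝ) : Fn) =
        ∑ s ∈ F, Finsupp.single ((P (σ s)).b + 1) ((1 / 8 : ℝ) ^ v) :=
      Finset.sum_congr rfl fun s _ => by rw [Finsupp.smul_single, smul_eq_mul, mul_one]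
    rw [h2] at h1
    refine ub_weaken ?_ h1
    rw [abs_of_pos (by positivity)]
    have h3 : (1 : ℝ) + 2 ^ (12 * v + 7 + 12 * (v - 1) ^ 2) ≤
        2 ^ (12 * v + 8 + 12 * (v - 1) ^ 2) := by
      have e1 : (2 : ℝ) ^ (12 * v + 8 + 12 * (v - 1) ^ 2) =
          2 * 2 ^ (12 * v + 7 + 12 * (v - 1) ^ 2) := by
        rw [← pow_succ']
        congr 1
        ring
      have e2 : (1 : ℝ) ≤ 2 ^ (12 * v + 7 + 12 * (v - 1) ^ 2) := one_le_pow₀ (by norm_num)
      rw [e1]
      linarith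
    have h4 : (2 : ℝ) ^ (12 * v + 8 + 12 * (v - 1) ^ 2) ≤ 8 ^ v * bb v := by
      have e1 : (8 : ℝ) ^ v = 2 ^ (3 * v) := by
        rw [pow_mul]
        norm_num
      unfold bb
      rw [e1, ← pow_add]
      refine pow_le_pow_right₀ (by norm_num) ?_
      obtain ⟨m, rfl⟩ : ∃ m, v = m + 2 := ⟨v - 2, by omega⟩
      have e2 : m + 2 - 1 = m + 1 := by omega
      rw [e2]
      nlinarith
    have h5 : (0 : ℝ) < (1 / 8) ^ v := by positivity
    have h6 : (1 / 8 : ℝ) ^ v * (8 ^ v * bb v) = bb v := by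
      rw [← mul_assoc, ← mul_pow]
      norm_num
    calc (1 / 8 : ℝ) ^ v * (1 + 2 ^ (12 * v + 7 + 12 * (v - 1) ^ 2))
        ≤ (1 / 8 : ℝ) ^ v * (8 ^ v * bb v) := mul_le_mul_of_nonneg_left (h3.trans h4) h5.le
      _ = bb v := h6
  have hnorm := hσ1 v (by omega) F (fun _ => (1 / 8 : ℝ) ^ v)
    (fun s _ => by rw [abs_of_pos (by positivity)]) hub3
  refine ⟨((1 / 8 : ℝ) ^ v) • ∑ s ∈ F, (P (σ (s + 1))).y,
    fun n => 8 ^ v * ∑ s ∈ F, b s * (P (σ (s + 1))).w n, r₀ + 1,
    F.sup fun s => (P (σ (s + 1))).b, ?_, Nat.lt_succ_self _, ?_, ?_, ?_, ?_⟩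
  · exact Submodule.smul_mem _ _ (Submodule.sum_mem _ fun s _ => hspan _)
  · intro n hn
    have h1 := Finsupp.support_smul hn
    have h2 := Finsupp.support_finsetSum h1
    obtain ⟨s, hs, hsn⟩ := Finset.mem_biUnion.1 h2
    have h3 := (hpair (σ (s + 1))).ysupp n hsn
    refine ⟨(hlo (σ (s + 1))).trans ((hLa _).le.trans h3.1), h3.2.trans ?_⟩
    exact Finset.le_sup (f := fun s => (P (σ (s + 1))).b) hs
  · refine ⟨F, b, fun s => (P (σ (s + 1))).y, fun s => (P (σ (s + 1))).w,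
      fun s => (P (σ (s + 1))).a, fun s => (P (σ (s + 1))).b, fun s => (P (σ (s + 1))).L,
      fun s hs => (hb s hs).2, hb1, fun s _ => hpair _, ?_, ?_, ?_, fun n => rfl⟩
    · intro s hs
      exact ⟨hLst _, hLa _, hab _, hlo _, Finset.le_sup (f := fun s => (P (σ (s + 1))).b) hs⟩
    · intro s _ s' _ hss'
      exact hbL _ _ (hσ (Nat.succ_lt_succ hss'))
    · intro ω hω'
      refine (hω ω hω').trans (le_of_eq ?_)
      unfold bb
      rw [← pow_add, div_eq_div_iff (by positivity) (by positivity), one_mul]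
      have e1 : (2 : ℝ) ^ (12 * v + 7 + 12 * (v - 1) ^ 2) =
          2 ^ 2 * 2 ^ (12 * v + 5 + 12 * (v - 1) ^ 2) := by
        rw [← pow_add]
        congr 1
        ring
      rw [e1]
      norm_num
  · have hprw : ∀ s ∈ F, ∀ s' ∈ F,
        pr (P (σ (s + 1))).y (P (σ (s' + 1))).w = if s' = s then 1 else 0 := by
      intro s _ s' _
      split_ifs with hss
      · rw [hss]
        exact (hpair _).pair
      · unfold pr
        refine Finset.sum_eq_zero fun n hn => ?_
        by_contra hne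
        have h1 := (hpair (σ (s + 1))).ysupp n hn
        have h2 := (hpair (σ (s' + 1))).wsupp n (fun h0 => hne (by rw [h0, mul_zero]))
        rcases lt_or_gt_of_ne hss with h3 | h3
        · have h4 := hbL _ _ (hσ (Nat.succ_lt_succ h3))
          have h5 := hLa (σ (s + 1))
          simp only [Nat.succ_eq_add_one] at h4
          omega
        · have h4 := hbL _ _ (hσ (Nat.succ_lt_succ h3))
          have h5 := hLa (σ (s' + 1))
          simp only [Nat.succ_eq_add_one] at h4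
          omega
    have h1 : (fun n => (8 : ℝ) ^ v * ∑ s ∈ F, b s * (P (σ (s + 1))).w n) =
        fun n => ∑ s ∈ F, (8 ^ v * b s) * (P (σ (s + 1))).w n := by
      funext n
      rw [Finset.mul_sum]
      exact Finset.sum_congr rfl fun s _ => by ring
    rw [h1, pr_smul, pr_sum]
    have h2 : ∀ s ∈ F, pr (P (σ (s + 1))).y
        (fun n => ∑ s' ∈ F, (8 ^ v * b s') * (P (σ (s' + 1))).w n) = 8 ^ v * b s := by
      intro s hs
      rw [pr_fsum]
      rw [Finset.sum_congr rfl fun s' hs' => by rw [hprw s hs s' hs']]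
      simp [hs]
    rw [Finset.sum_congr rfl h2, ← Finset.mul_sum, hb1, mul_one, ← mul_pow]
    norm_num
  · have h1 : ((1 / 8 : ℝ) ^ v) • ∑ s ∈ F, (P (σ (s + 1))).y =
        (2 : ℝ) • ∑ s ∈ F, ((1 / 8 : ℝ) ^ v) • ((1 / 2 : ℝ) • (P (σ (s + 1))).y) := by
      rw [Finset.smul_sum, Finset.smul_sum]
      refine Finset.sum_congr rfl fun s _ => ?_
      rw [smul_smul, smul_smul]
      congr 1
      ring
    rw [h1, nx_smul, abs_of_pos (by norm_num : (0 : ℝ) < 2)]
    linarith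

end Pool.Agent.Helper23.AC
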